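import Pool.Agent.Helper26.RP.Goals

/-!
# MP_105b7b_pr, packet MO1: monotone polygons
-/

noncomputable section

namespace RP.PkMO1

/-! ### The sorting keys -/

def key {n : ℕ} (τ : Fin n → Bool) (i : Fin n) : ℕ :=
  if τ i = false ∨ i.val + 1 = n then i.val else 2 * n - i.val

theorem key_inj {n : ℕ} (τ : Fin n → Bool) : Function.Injective (key τ) := by
  intro i j h
  unfold key at h
  have hi := i.isLt
  have hj := j.isLt
  refine Fin.ext ?_
  split_ifs at h <;> omega

theorem key_false {n : ℕ} {τ : Fin n → Bool} {i : Fin n} (h : τ i = false) : key τ i = i.val := by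
  unfold key
  rw [if_pos (Or.inl h)]

theorem key_true {n : ℕ} {τ : Fin n → Bool} {i : Fin n} (h : τ i = true) (h' : i.val + 1 ≠ n) :
    key τ i = 2 * n - i.val := by
  unfold key
  rw [if_neg]
  rintro (h1 | h1)
  · rw [h] at h1
    exact Bool.noConfusion h1
  · exact h' h1

theorem strictMono_key {n : ℕ} (τ : Fin n → Bool) : StrictMono (key τ ∘ monoPerm τ) :=
  (Tuple.monotone_sort (key τ)).strictMono_of_injective
    ((key_inj τ).comp (monoPerm τ).injective)

theorem lt_iff {n : ℕ} (τ : Fin n → Bool) (i j : Fin n) :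
    (monoPerm τ).symm i < (monoPerm τ).symm j ↔ key τ i < key τ j := by
  have h := (strictMono_key τ).lt_iff_lt (a := (monoPerm τ).symm i) (b := (monoPerm τ).symm j)
  simp only [Function.comp_apply, Equiv.apply_symm_apply] at h
  exact h.symm

/-- Both ends are on the lower chain. -/
def Ends {n : ℕ} (τ : Fin n → Bool) : Prop := ∀ i : Fin n, i.val = 0 ∨ i.val + 1 = n → τ i = false

theorem true_ne {n : ℕ} {τ : Fin n → Bool} (hE : Ends τ) {i : Fin n} (h : τ i = true) :
    i.val ≠ 0 ∧ i.val + 1 ≠ n := by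
  constructor <;> intro h1
  · have := hE i (Or.inl h1)
    rw [h] at this
    exact Bool.noConfusion this
  · have := hE i (Or.inr h1)
    rw [h] at this
    exact Bool.noConfusion this

theorem key_true' {n : ℕ} {τ : Fin n → Bool} (hE : Ends τ) {i : Fin n} (h : τ i = true) :
    key τ i = 2 * n - i.val := key_true h (true_ne hE h).2

/-! ### The edges -/

/-- An edge of the lower chain. -/
def LowE {n : ℕ} (τ : Fin n → Bool) (p q : Fin n) : Prop :=
  p < q ∧ τ p = false ∧ τ q = false ∧ ∀ l, p < l → l < q → τ l = true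

/-- An edge of the upper chain. -/
def UpE {n : ℕ} (τ : Fin n → Bool) (p q : Fin n) : Prop :=
  p < q ∧ (τ p = true ∨ p.val = 0) ∧ (τ q = true ∨ q.val + 1 = n) ∧
    ∀ l, p < l → l < q → τ l = false

theorem bool_ff {b : Bool} (h : b = true → False) : b = false := by
  cases b
  · rfl
  · exact (h rfl).elim

theorem bool_tt {b : Bool} (h : b = false → False) : b = true := by
  cases b
  · exact (h rfl).elim
  · rfl

theorem edge_cases {m : ℕ} {τ : Fin (m + 1) → Bool} (hm : 2 ≤ m) (hE : Ends τ)
    (i : Fin (m + 1)) :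
    LowE τ (monoPerm τ i) (monoPerm τ (finRotate (m + 1) i)) ∨
      UpE τ (monoPerm τ (finRotate (m + 1) i)) (monoPerm τ i) := by
  set σ := monoPerm τ with hσ
  have hmono := strictMono_key τ
  by_cases hi : i = Fin.last m
  · -- from the last position to the first one
    have hrot : finRotate (m + 1) i = 0 := by
      rw [hi]
      exact finRotate_last
    rw [hrot]
    right
    have hmin : ∀ l, key τ (σ 0) ≤ key τ l := fun l => by
      have h := hmono.monotone (Fin.zero_le (σ.symm l))
      simp only [Function.comp_apply, ← hσ, Equiv.apply_symm_apply] at h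
      exact h
    have hmax : ∀ l, key τ l ≤ key τ (σ i) := fun l => by
      have h := hmono.monotone (Fin.le_last (σ.symm l))
      simp only [Function.comp_apply, ← hσ, Equiv.apply_symm_apply] at h
      rw [hi]
      exact h
    have h0 : τ 0 = false := hE 0 (Or.inl rfl)
    have hb : (σ 0).val = 0 := by
      have h := hmin 0
      rw [key_false h0] at h
      rcases Bool.eq_false_or_eq_true (τ (σ 0)) with h1 | h1
      · rw [key_true' hE h1] at h
        have := (σ 0).isLt
        simp only [Fin.val_zero] at h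
        omega
      · rw [key_false h1] at h
        simp only [Fin.val_zero] at h
        omega
    have hlast : τ (Fin.last m) = false := hE _ (Or.inr rfl)
    rcases Bool.eq_false_or_eq_true (τ (σ i)) with h1 | h1
    · have hne := true_ne hE h1
      refine ⟨?_, Or.inr hb, Or.inl h1, fun l hl1 hl2 => bool_ff fun h2 => ?_⟩
      · rw [Fin.lt_def, hb]
        omega
      · have h3 := hmax l
        rw [key_true' hE h1, key_true' hE h2] at h3
        have := (σ i).isLt
        rw [Fin.lt_def] at hl2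
        omega
    · have h3 := hmax (Fin.last m)
      rw [key_false h1, key_false hlast, Fin.val_last] at h3
      have hilt := (σ i).isLt
      refine ⟨?_, Or.inr hb, Or.inr (by omega), fun l hl1 hl2 => bool_ff fun h2 => ?_⟩
      · rw [Fin.lt_def, hb]
        omega
      · have h4 := hmax l
        rw [key_false h1, key_true' hE h2] at h4
        have := l.isLt
        omega
  · have hrot : (finRotate (m + 1) i).val = i.val + 1 := coe_finRotate_of_ne_last hi
    set j := finRotate (m + 1) i with hj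
    have hij : i < j := by
      rw [Fin.lt_def, hrot]
      omega
    have hlt : key τ (σ i) < key τ (σ j) := hmono hij
    have hno : ∀ l, ¬ (key τ (σ i) < key τ l ∧ key τ l < key τ (σ j)) := by
      rintro l ⟨h1, h2⟩
      have e1 := (lt_iff τ (σ i) l).2 h1
      have e2 := (lt_iff τ l (σ j)).2 h2
      rw [← hσ, Equiv.symm_apply_apply] at e1 e2
      rw [Fin.lt_def] at e1 e2
      omega
    have hlast : τ (Fin.last m) = false := hE _ (Or.inr rfl)
    have hli := (σ i).isLt
    have hlj := (σ j).isLt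
    rcases Bool.eq_false_or_eq_true (τ (σ i)) with h1 | h1 <;>
      rcases Bool.eq_false_or_eq_true (τ (σ j)) with h2 | h2
    · right
      rw [key_true' hE h1, key_true' hE h2] at hlt
      refine ⟨?_, Or.inl h2, Or.inl h1, fun l hl1 hl2 => bool_ff fun h3 => hno l ?_⟩
      · rw [Fin.lt_def]
        omega
      · rw [key_true' hE h1, key_true' hE h2, key_true' hE h3]
        rw [Fin.lt_def] at hl1 hl2
        omega
    · rw [key_true' hE h1, key_false h2] at hlt
      omega
    · right
      have hli' : (σ i).val + 1 = m + 1 := by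
        have h3 := hno (Fin.last m)
        rw [key_false h1, key_true' hE h2, key_false hlast, Fin.val_last] at h3
        omega
      have hne := true_ne hE h2
      refine ⟨?_, Or.inl h2, Or.inr hli', fun l hl1 hl2 => bool_ff fun h3 => hno l ?_⟩
      · rw [Fin.lt_def]
        omega
      · rw [key_false h1, key_true' hE h2, key_true' hE h3]
        have := l.isLt
        rw [Fin.lt_def] at hl1 hl2
        omega
    · left
      rw [key_false h1, key_false h2] at hlt
      refine ⟨Fin.lt_def.2 hlt, h1, h2, fun l hl1 hl2 => bool_tt fun h3 => hno l ?_⟩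
      rw [key_false h1, key_false h2, key_false h3]
      exact ⟨hl1, hl2⟩

/-! ### Geometry -/

theorem seg_line {A B P : E} (h : P ∈ segment ℝ A B) (hAB : A.1 < B.1) :
    A.1 ≤ P.1 ∧ P.1 ≤ B.1 ∧ P.2 = A.2 + (B.2 - A.2) / (B.1 - A.1) * (P.1 - A.1) := by
  obtain ⟨a, b, ha, hb, hab, rfl⟩ := h
  have ha' : a = 1 - b := by linarith
  have hd : 0 < B.1 - A.1 := by linarith
  have e1 : (a • A + b • B).1 = A.1 + b * (B.1 - A.1) := by
    rw [Prod.fst_add, Prod.smul_fst, Prod.smul_fst, smul_eq_mul, smul_eq_mul, ha']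
    ring
  have e2 : (a • A + b • B).2 = A.2 + b * (B.2 - A.2) := by
    rw [Prod.snd_add, Prod.smul_snd, Prod.smul_snd, smul_eq_mul, smul_eq_mul, ha']
    ring
  rw [e1, e2]
  refine ⟨by nlinarith, by nlinarith, ?_⟩
  field_simp
  ring

theorem aff_lt {α β s t p c : ℝ} (hs : α + β * s < c) (ht : α + β * t < c) (h1 : s ≤ p)
    (h2 : p ≤ t) : α + β * p < c := by
  rcases le_total 0 β with hβ | hβ
  · nlinarith
  · nlinarith

theorem NX_swap12 {a b c d : E} (h : NX a b c d) : NX b a c d := by
  rcases h with h | h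
  · exact Or.inl (by tauto)
  · exact Or.inr (by rwa [segment_symm])

theorem NX_swap34 {a b c d : E} (h : NX a b c d) : NX a b d c := by
  rcases h with h | h
  · exact Or.inl (by tauto)
  · exact Or.inr (by rwa [segment_symm ℝ d c])

theorem NX_comm {a b c d : E} (h : NX a b c d) : NX c d a b := by
  rcases h with (h | h | h | h) | h
  · exact Or.inl (Or.inl h.symm)
  · exact Or.inl (Or.inr (Or.inr (Or.inl h.symm)))
  · exact Or.inl (Or.inr (Or.inl h.symm))
  · exact Or.inl (Or.inr (Or.inr (Or.inr h.symm)))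
  · exact Or.inr h.symm

theorem NX_of_lt {A B C D : E} (h1 : A.1 < B.1) (h2 : C.1 < D.1) (h3 : B.1 < C.1) :
    NX A B C D := by
  refine Or.inr (Set.disjoint_left.2 fun P hP hP' => ?_)
  have e1 := seg_line hP h1
  have e2 := seg_line hP' h2
  linarith [e1.2.1, e2.1]

section

variable {n : ℕ} {τ : Fin n → Bool} {x : Fin n → E}

theorem NX_LL_aux (hx : StrictMono fun i => (x i).1) {p q p' q' : Fin n} (h : LowE τ p q)
    (h' : LowE τ p' q') (hlt : p < p') : NX (x p) (x q) (x p') (x q') := by
  obtain ⟨hpq, -, -, hb⟩ := h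
  obtain ⟨hpq', hp', -, -⟩ := h'
  rcases lt_trichotomy q p' with h1 | h1 | h1
  · exact NX_of_lt (hx hpq) (hx hpq') (hx h1)
  · exact Or.inl (Or.inr (Or.inr (Or.inl (by rw [h1]))))
  · have := hb p' hlt h1
    rw [hp'] at this
    exact Bool.noConfusion this

theorem NX_LL (hx : StrictMono fun i => (x i).1) {p q p' q' : Fin n} (h : LowE τ p q)
    (h' : LowE τ p' q') : NX (x p) (x q) (x p') (x q') := by
  rcases lt_trichotomy p p' with h1 | h1 | h1
  · exact NX_LL_aux hx h h' h1
  · exact Or.inl (Or.inl (by rw [h1]))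
  · exact NX_comm (NX_LL_aux hx h' h h1)

theorem NX_UU_aux (hx : StrictMono fun i => (x i).1) {p q p' q' : Fin n} (h : UpE τ p q)
    (h' : UpE τ p' q') (hlt : p < p') : NX (x p) (x q) (x p') (x q') := by
  obtain ⟨hpq, -, -, hb⟩ := h
  obtain ⟨hpq', hp', -, -⟩ := h'
  rcases lt_trichotomy q p' with h1 | h1 | h1
  · exact NX_of_lt (hx hpq) (hx hpq') (hx h1)
  · exact Or.inl (Or.inr (Or.inr (Or.inl (by rw [h1]))))
  · have := hb p' hlt h1
    rw [Fin.lt_def] at hlt
    rcases hp' with hp' | hp'
    · rw [hp'] at this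
      exact Bool.noConfusion this
    · omega

theorem NX_UU (hx : StrictMono fun i => (x i).1) {p q p' q' : Fin n} (h : UpE τ p q)
    (h' : UpE τ p' q') : NX (x p) (x q) (x p') (x q') := by
  rcases lt_trichotomy p p' with h1 | h1 | h1
  · exact NX_UU_aux hx h h' h1
  · exact Or.inl (Or.inl (by rw [h1]))
  · exact NX_comm (NX_UU_aux hx h' h h1)

theorem NX_LU (hx : StrictMono fun i => (x i).1) (hNC : NC τ fun i => (x i).2)
    {p q i j : Fin n} (h : LowE τ p q) (h' : UpE τ i j) : NX (x p) (x q) (x i) (x j) := by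
  obtain ⟨hpq, hp, hq, hb⟩ := h
  obtain ⟨hij, hi, hj, hb'⟩ := h'
  obtain ⟨-, hN1, hN2⟩ := hNC
  by_cases hs : p = i ∨ p = j ∨ q = i ∨ q = j
  · left
    rcases hs with hs | hs | hs | hs
    · exact Or.inl (by rw [hs])
    · exact Or.inr (Or.inl (by rw [hs]))
    · exact Or.inr (Or.inr (Or.inl (by rw [hs])))
    · exact Or.inr (Or.inr (Or.inr (by rw [hs])))
  push Not at hs
  obtain ⟨hpi, hpj, hqi, hqj⟩ := hs
  refine Or.inr (Set.disjoint_left.2 fun P hP hP' => ?_)
  have dpq : (x p).1 < (x q).1 := hx hpq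
  have dij : (x i).1 < (x j).1 := hx hij
  obtain ⟨f1, f2, f3⟩ := seg_line hP dpq
  obtain ⟨g1, g2, g3⟩ := seg_line hP' dij
  have hiq : i < q := lt_of_le_of_ne (hx.le_iff_le.1 (g1.trans f2)) (Ne.symm hqi)
  have hpj' : p < j := lt_of_le_of_ne (hx.le_iff_le.1 (f1.trans g2)) hpj
  set k1 := ((x q).2 - (x p).2) / ((x q).1 - (x p).1) with hk1
  set k2 := ((x j).2 - (x i).2) / ((x j).1 - (x i).1) with hk2
  have ek1 : k1 * ((x q).1 - (x p).1) = (x q).2 - (x p).2 :=
    div_mul_cancel₀ _ (by linarith)
  have ek2 : k2 * ((x j).1 - (x i).1) = (x j).2 - (x i).2 :=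
    div_mul_cancel₀ _ (by linarith)
  -- a point of the upper chain above the lower edge
  have up : ∀ r, p < r → r < q →
      ((x p).2 - k1 * (x p).1) + k1 * (x r).1 < (x r).2 := by
    intro r hr1 hr2
    obtain ⟨e1, e2⟩ := hN1 p r q hr1 hr2 hp hq hb
    refine aff_lt (s := (x p).1) (t := (x q).1) ?_ ?_ (hx hr1).le (hx hr2).le
    · linarith
    · linarith
  -- a point of the lower chain below the upper edge
  have dn : ∀ r, i < r → r < j →
      (-((x i).2 - k2 * (x i).1)) + (-k2) * (x r).1 < -(x r).2 := by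
    intro r hr1 hr2
    obtain ⟨e1, e2⟩ := hN2 i r j hr1 hr2 hi hj hb'
    refine aff_lt (s := (x i).1) (t := (x j).1) ?_ ?_ (hx hr1).le (hx hr2).le
    · linarith
    · linarith
  have hleft : ∃ s, s ≤ P.1 ∧ (((x p).2 - k1 * (x p).1) - ((x i).2 - k2 * (x i).1)) +
      (k1 - k2) * s < 0 := by
    rcases lt_or_gt_of_ne hpi with h1 | h1
    · refine ⟨(x i).1, g1, ?_⟩
      have := up i h1 hiq
      linarith
    · refine ⟨(x p).1, f1, ?_⟩
      have := dn p h1 hpj'
      linarith
  have hright : ∃ t, P.1 ≤ t ∧ (((x p).2 - k1 * (x p).1) - ((x i).2 - k2 * (x i).1)) +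
      (k1 - k2) * t < 0 := by
    rcases lt_or_gt_of_ne hqj with h1 | h1
    · refine ⟨(x q).1, f2, ?_⟩
      have := dn q hiq h1
      linarith
    · refine ⟨(x j).1, g2, ?_⟩
      have := up j hpj' h1
      linarith
  obtain ⟨s, hs1, hs2⟩ := hleft
  obtain ⟨t, ht1, ht2⟩ := hright
  have := aff_lt hs2 ht2 hs1 ht1
  linarith

end

theorem mo1 : G_MO1 := by
  intro n hn
  obtain ⟨m, rfl⟩ : ∃ m, n = m + 1 := ⟨n - 1, by omega⟩
  refine ⟨fun τ x hx hG hNC => ⟨fun i j k hij hjk hik => ?_, fun i j => ?_⟩,
    fun τ τ' hE h => ?_⟩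
  · exact hG _ _ _ ((monoPerm τ).injective.ne hij) ((monoPerm τ).injective.ne hjk)
      ((monoPerm τ).injective.ne hik)
  · have hE : Ends τ := hNC.1
    simp only [Function.comp_apply]
    rcases edge_cases (by omega) hE i with h1 | h1 <;>
      rcases edge_cases (by omega) hE j with h2 | h2
    · exact NX_LL hx h1 h2
    · exact NX_swap34 (NX_LU hx hNC h1 h2)
    · exact NX_swap12 (NX_comm (NX_LU hx hNC h2 h1))
    · exact NX_swap12 (NX_swap34 (NX_UU hx h1 h2))
  · have hE1 : Ends τ := fun i hi => (hE i hi).1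
    have hE2 : Ends τ' := fun i hi => (hE i hi).2
    have hkey : ∀ (τ : Fin (m + 1) → Bool), Ends τ → ∀ i, τ i = false ↔
        ¬ key τ (Fin.last m) < key τ i := by
      intro τ hE i
      rw [key_false (hE _ (Or.inr rfl)), Fin.val_last]
      have := i.isLt
      rcases Bool.eq_false_or_eq_true (τ i) with h1 | h1
      · rw [key_true' hE h1, h1]
        exact iff_of_false (fun h => Bool.noConfusion h) (by omega)
      · rw [key_false h1, h1]
        exact iff_of_true rfl (by omega)
    funext i
    have h1 : τ i = false ↔ τ' i = false := by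
      rw [hkey τ hE1 i, hkey τ' hE2 i, ← lt_iff τ, ← lt_iff τ', h]
    rcases Bool.eq_false_or_eq_true (τ i) with h2 | h2 <;>
      rcases Bool.eq_false_or_eq_true (τ' i) with h3 | h3
    · rw [h2, h3]
    · rw [h1.2 h3, h3]
    · rw [h2, h1.1 h2]
    · rw [h2, h3]

end RP.PkMO1
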